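import Pool.Agent.Helper54.Wav.Defs

set_option autoImplicit false

open MeasureTheory Matrix Module
open scoped ComplexConjugate ContDiff FourierTransform SchwartzMap InnerProductSpace

namespace Pool.Agent.Helper54.Wav

/-! ### W5 : completion lemma -/

/-- complex reflection -/
noncomputable def crefl {V : Type*} [NormedAddCommGroup V] [InnerProductSpace ℂ V] (c : ℂ) (w x : V) : V :=
  x - (c * ⟪w, x⟫_ℂ) • w

theorem crefl_inner {V : Type*} [NormedAddCommGroup V] [InnerProductSpace ℂ V] (c : ℂ) (w x y : V)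
    (hc : c + conj c = c * conj c * ⟪w, w⟫_ℂ) : ⟪crefl c w x, crefl c w y⟫_ℂ = ⟪x, y⟫_ℂ := by
  simp only [crefl, inner_sub_left, inner_sub_right, inner_smul_left, inner_smul_right, map_mul,
    inner_conj_symm]
  linear_combination (-⟪x, w⟫_ℂ * ⟪w, y⟫_ℂ) * hc

theorem crefl_crefl {V : Type*} [NormedAddCommGroup V] [InnerProductSpace ℂ V] (c : ℂ) (w x : V)
    (hc : c + conj c = c * conj c * ⟪w, w⟫_ℂ) : crefl c w (crefl (conj c) w x) = x := by
  simp only [crefl, inner_sub_right, inner_smul_right]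
  rw [sub_sub, ← add_smul]
  have : conj c * ⟪w, x⟫_ℂ + c * (⟪w, x⟫_ℂ - conj c * ⟪w, x⟫_ℂ * ⟪w, w⟫_ℂ) = 0 := by
    linear_combination ⟪w, x⟫_ℂ * hc
  rw [this, zero_smul, sub_zero]

theorem crefl_coeff {V : Type*} [NormedAddCommGroup V] [InnerProductSpace ℂ V] (s e : V)
    (hs : ‖s‖ = 1) (he : ‖e‖ = 1) (hse : s ≠ e) :
    (1 - ⟪s, e⟫_ℂ) ≠ 0 ∧ ((1 - ⟪s, e⟫_ℂ)⁻¹ + conj (1 - ⟪s, e⟫_ℂ)⁻¹ =
      (1 - ⟪s, e⟫_ℂ)⁻¹ * conj (1 - ⟪s, e⟫_ℂ)⁻¹ * ⟪s - e, s - e⟫_ℂ) ∧
      crefl (1 - ⟪s, e⟫_ℂ)⁻¹ (s - e) e = s := by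
  have h1 : ⟪s, s⟫_ℂ = 1 := by rw [inner_self_eq_norm_sq_to_K, hs]; simp
  have h2 : ⟪e, e⟫_ℂ = 1 := by rw [inner_self_eq_norm_sq_to_K, he]; simp
  have hne : (1 - ⟪s, e⟫_ℂ) ≠ 0 := by
    intro h
    apply hse
    have h3 : ⟪s, e⟫_ℂ = 1 := by linear_combination -h
    exact (inner_eq_one_iff_of_norm_eq_one hs he).mp h3
  have hne' : conj (1 - ⟪s, e⟫_ℂ) ≠ 0 := by
    intro h
    exact hne (by simpa using congrArg conj h)
  refine ⟨hne, ?_, ?_⟩
  · rw [map_inv₀]
    have h4 : ⟪s - e, s - e⟫_ℂ = (1 - ⟪s, e⟫_ℂ) + conj (1 - ⟪s, e⟫_ℂ) := by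
      simp only [inner_sub_left, inner_sub_right, h1, h2, map_sub, map_one, inner_conj_symm]
      ring
    rw [h4]
    field_simp
    ring
  · simp only [crefl, inner_sub_left, h2]
    have : (1 - ⟪s, e⟫_ℂ)⁻¹ * (⟪s, e⟫_ℂ - 1) = -1 := by
      field_simp
      ring
    rw [this]
    simp

theorem completion {n : ℕ} {V : Type*} [NormedAddCommGroup V] [InnerProductSpace ℂ V]
    [FiniteDimensional ℂ V] (p q : ℕ) (h : finrank ℂ V = p + q) (hq : n ≤ 2 * q)
    (s : Fin p → (Fin n → ℝ) → V) (hs : ∀ i, ContDiff ℝ ∞ (s i)) (hper : ∀ i, Per (s i))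
    (hon : ∀ ξ, Orthonormal ℂ (fun i => s i ξ)) :
    ∃ t : Fin q → (Fin n → ℝ) → V, (∀ i, ContDiff ℝ ∞ (t i)) ∧ (∀ i, Per (t i)) ∧
      ∀ ξ, Orthonormal ℂ (Sum.elim (fun i => s i ξ) (fun i => t i ξ)) := by
  induction p generalizing V with
  | zero =>
    have hq' : finrank ℂ V = q := by omega
    let b : OrthonormalBasis (Fin q) ℂ V := (stdOrthonormalBasis ℂ V).reindex (finCongr hq')
    refine ⟨fun i _ => b i, fun i => contDiff_const, fun i ξ m => rfl, fun ξ => ?_⟩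
    rw [orthonormal_iff_ite]
    rintro (i | i) (j | j)
    · exact i.elim0
    · exact i.elim0
    · exact j.elim0
    · simp only [Sum.elim_inr, Sum.inr.injEq]
      exact orthonormal_iff_ite.mp b.orthonormal i j
  | succ p ih =>
    -- a unit vector missed by `s 0`
    obtain ⟨e, he1, hes⟩ : ∃ e : V, ‖e‖ = 1 ∧ ∀ ξ, s 0 ξ ≠ e := by
      have hf : ContDiff ℝ 1 (fun x : (Fin n → ℝ) × ℝ => x.2 • s 0 x.1) := by
        have h1 : ContDiff ℝ 1 (s 0) := (hs 0).of_le (by exact_mod_cast le_top)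
        exact contDiff_snd.smul (h1.comp contDiff_fst)
      have hfd : FiniteDimensional ℝ V := FiniteDimensional.complexToReal V
      have hrank : finrank ℝ ((Fin n → ℝ) × ℝ) < finrank ℝ V := by
        rw [finrank_real_of_complex, h, Module.finrank_prod, Module.finrank_fin_fun,
          Module.finrank_self]
        omega
      obtain ⟨v, hv⟩ := (hf.dense_compl_range_of_finrank_lt_finrank hrank).nonempty
      have hv0 : v ≠ 0 := by
        rintro rfl
        exact hv ⟨(0, 0), by simp⟩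
      refine ⟨(‖v‖⁻¹ : ℝ) • v, ?_, ?_⟩
      · rw [norm_smul, norm_inv, norm_norm, inv_mul_cancel₀ (norm_ne_zero_iff.mpr hv0)]
      · intro ξ hξ
        apply hv
        refine ⟨(ξ, ‖v‖), ?_⟩
        simp only [hξ, smul_smul]
        rw [mul_inv_cancel₀ (norm_ne_zero_iff.mpr hv0), one_smul]
    have hs1 : ∀ i ξ, ‖s i ξ‖ = 1 := fun i ξ => (hon ξ).1 i
    set c : (Fin n → ℝ) → ℂ := fun ξ => (1 - ⟪s 0 ξ, e⟫_ℂ)⁻¹ with hc
    set w : (Fin n → ℝ) → V := fun ξ => s 0 ξ - e with hw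
    have hcc : ∀ ξ, c ξ + conj (c ξ) = c ξ * conj (c ξ) * ⟪w ξ, w ξ⟫_ℂ := fun ξ =>
      (crefl_coeff (s 0 ξ) e (hs1 0 ξ) he1 (hes ξ)).2.1
    have hcc' : ∀ ξ, conj (c ξ) + conj (conj (c ξ)) = conj (c ξ) * conj (conj (c ξ)) * ⟪w ξ, w ξ⟫_ℂ := by
      intro ξ
      rw [Complex.conj_conj]
      linear_combination hcc ξ
    have hUe : ∀ ξ, crefl (c ξ) (w ξ) e = s 0 ξ := fun ξ =>
      (crefl_coeff (s 0 ξ) e (hs1 0 ξ) he1 (hes ξ)).2.2
    have hUs : ∀ ξ, crefl (conj (c ξ)) (w ξ) (s 0 ξ) = e := by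
      intro ξ
      have := crefl_crefl (conj (c ξ)) (w ξ) e (hcc' ξ)
      rw [Complex.conj_conj, hUe] at this
      exact this
    -- smoothness
    have hwsm : ContDiff ℝ ∞ w := (hs 0).sub contDiff_const
    have hcsm : ContDiff ℝ ∞ c := by
      have h1 : ContDiff ℝ ∞ (fun ξ => (1 - ⟪s 0 ξ, e⟫_ℂ)) :=
        contDiff_const.sub ((hs 0).inner ℂ contDiff_const)
      exact h1.inv (fun ξ => (crefl_coeff (s 0 ξ) e (hs1 0 ξ) he1 (hes ξ)).1)
    have hccsm : ContDiff ℝ ∞ (fun ξ => conj (c ξ)) := by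
      exact Complex.conjCLE.contDiff.comp hcsm
    have hcr : ∀ (a : (Fin n → ℝ) → ℂ) (x : (Fin n → ℝ) → V), ContDiff ℝ ∞ a → ContDiff ℝ ∞ x →
        ContDiff ℝ ∞ (fun ξ => crefl (a ξ) (w ξ) (x ξ)) := by
      intro a x ha hx
      exact hx.sub ((ha.mul (hwsm.inner ℂ hx)).smul hwsm)
    -- the orthogonal complement
    set V' : Submodule ℂ V := (ℂ ∙ e)ᗮ with hV'
    have hV'rank : finrank ℂ V' = p + q := by
      have : Fact (finrank ℂ V = (p + q) + 1) := ⟨by omega⟩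
      exact Submodule.finrank_orthogonal_span_singleton (by
        intro h0
        rw [h0] at he1
        simp at he1)
    have hmem : ∀ (i : Fin p) ξ, crefl (conj (c ξ)) (w ξ) (s i.succ ξ) ∈ V' := by
      intro i ξ
      rw [hV', Submodule.mem_orthogonal_singleton_iff_inner_right, ← hUs ξ,
        crefl_inner _ _ _ _ (hcc' ξ)]
      exact (hon ξ).2 (Fin.succ_ne_zero i).symm
    set s' : Fin p → (Fin n → ℝ) → V' := fun i ξ => ⟨crefl (conj (c ξ)) (w ξ) (s i.succ ξ), hmem i ξ⟩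
      with hs'
    have hs'sm : ∀ i, ContDiff ℝ ∞ (s' i) := by
      intro i
      have h1 : s' i = fun ξ => V'.orthogonalProjectionOnto (crefl (conj (c ξ)) (w ξ) (s i.succ ξ)) := by
        funext ξ
        exact (Submodule.orthogonalProjectionOnto_mem_subspace_eq_self (s' i ξ)).symm
      rw [h1]
      exact (V'.orthogonalProjectionOnto.restrictScalars ℝ).contDiff.comp
        (hcr _ _ hccsm (hs i.succ))
    have hper' : ∀ i, Per (s' i) := by
      intro i ξ m
      apply Subtype.ext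
      simp only [hs', hc, hw]
      rw [hper 0 ξ m, hper i.succ ξ m]
    have hon' : ∀ ξ, Orthonormal ℂ (fun i => s' i ξ) := by
      intro ξ
      rw [orthonormal_iff_ite]
      intro i j
      rw [Submodule.coe_inner]
      simp only [hs']
      rw [crefl_inner _ _ _ _ (hcc' ξ)]
      have := orthonormal_iff_ite.mp (hon ξ) i.succ j.succ
      rw [this]
      simp
    obtain ⟨t', ht'1, ht'2, ht'3⟩ := ih hV'rank s' hs'sm hper' hon'
    refine ⟨fun i ξ => crefl (c ξ) (w ξ) (t' i ξ : V), ?_, ?_, ?_⟩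
    · intro i
      exact hcr _ _ hcsm ((V'.subtypeL.restrictScalars ℝ).contDiff.comp (ht'1 i))
    · intro i ξ m
      simp only [hc, hw]
      rw [hper 0 ξ m, ht'2 i ξ m]
    · intro ξ
      have hss : ∀ i : Fin p, s i.succ ξ = crefl (c ξ) (w ξ) (s' i ξ : V) := by
        intro i
        simp only [hs']
        rw [crefl_crefl _ _ _ (hcc ξ)]
      have h3 := orthonormal_iff_ite.mp (ht'3 ξ)
      have hee : ⟪e, e⟫_ℂ = 1 := by rw [inner_self_eq_norm_sq_to_K, he1]; simp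
      have hev : ∀ x : V', ⟪e, (x : V)⟫_ℂ = 0 := fun x =>
        (Submodule.mem_orthogonal_singleton_iff_inner_right.mp x.2)
      have hve : ∀ x : V', ⟪(x : V), e⟫_ℂ = 0 := fun x =>
        (Submodule.mem_orthogonal_singleton_iff_inner_left.mp x.2)
      rw [orthonormal_iff_ite]
      rintro (i | i) (j | j)
      · have := orthonormal_iff_ite.mp (hon ξ) i j
        simp only [Sum.elim_inl, Sum.inl.injEq]
        exact this
      · simp only [Sum.elim_inl, Sum.elim_inr, reduceCtorEq, if_false]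
        refine Fin.cases ?_ (fun i => ?_) i
        · rw [← hUe ξ, crefl_inner _ _ _ _ (hcc ξ)]
          exact hev _
        · rw [hss i, crefl_inner _ _ _ _ (hcc ξ)]
          have := h3 (Sum.inl i) (Sum.inr j)
          simpa using this
      · simp only [Sum.elim_inl, Sum.elim_inr, reduceCtorEq, if_false]
        refine Fin.cases ?_ (fun j => ?_) j
        · rw [← hUe ξ, crefl_inner _ _ _ _ (hcc ξ)]
          exact hve _
        · rw [hss j, crefl_inner _ _ _ _ (hcc ξ)]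
          have := h3 (Sum.inr i) (Sum.inl j)
          simpa using this
      · simp only [Sum.elim_inr]
        rw [crefl_inner _ _ _ _ (hcc ξ)]
        have := h3 (Sum.inr i) (Sum.inr j)
        simpa using this

end Pool.Agent.Helper54.Wav
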